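import Mathlib
import Pool.Agent.QFC.HexK
import Pool.Agent.QFC.HexIrr
import Pool.Agent.QFC.OctK
import Pool.Agent.QFC.OctIrr
import Pool.Agent.QFC.Transport
import Pool.Agent.QFC.Final

/-!
# Two hyperbolic irreducible free-by-cyclic groups that are not quasi-isometric

The groups are the mapping tori of an explicit automorphism `φ` of the free group `F₆` and an
explicit automorphism `ψ` of the free group `F₁₁`. They are the fundamental groups of two polygonal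
complexes with one vertex and complete bipartite link: hexagons with link `K_{6,4}` and octagons
with link `K_{8,6}`. The universal covers are right-angled Fuchsian buildings of Euler
characteristic zero.
-/

namespace Pool.Agent.Results.MP_d0a8c9_al.NotQI

open Pool.Agent.QFC

/-- The words `φ(x₀), …, φ(x₅)` in the generators `x₀, …, x₅` of the free group `F₆`. -/
def phiImage (x : Fin 6 → FreeGroup (Fin 6)) : Fin 6 → FreeGroup (Fin 6) :=
  ![x 1,
    (x 4)⁻¹ * (x 0)⁻¹ * x 1 * (x 3)⁻¹ * x 5 * (x 2)⁻¹ * (x 1)⁻¹ * x 0 * x 4,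
    (x 4)⁻¹ * (x 0)⁻¹ * x 1 * x 1 * x 3,
    x 4,
    (x 4)⁻¹ * (x 0)⁻¹ * x 1 * (x 2)⁻¹ * (x 4)⁻¹ * (x 0)⁻¹ * x 1 * x 1 * x 3,
    (x 1)⁻¹ * x 0 * x 4]

/-- The words `ψ(x₀), …, ψ(x₁₀)` in the generators `x₀, …, x₁₀` of the free group `F₁₁`. -/
def psiImage (x : Fin 11 → FreeGroup (Fin 11)) : Fin 11 → FreeGroup (Fin 11) :=
  ![x 1,
    (x 8)⁻¹ * x 1 * (x 8)⁻¹ * (x 0)⁻¹ * x 2,
    (x 10)⁻¹ * x 6 * (x 10)⁻¹ * (x 2)⁻¹ * x 8 * x 6,
    x 4,
    (x 3)⁻¹ * x 7 * x 4 * x 10 * x 6 * (x 2)⁻¹ * (x 4)⁻¹ * (x 9)⁻¹ * (x 5)⁻¹ * x 8 *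
      (x 10)⁻¹ * x 6 * (x 10)⁻¹ * (x 2)⁻¹ * x 8 * x 6,
    x 6,
    (x 1)⁻¹ * x 3 * x 8 * (x 6)⁻¹,
    x 8,
    (x 2)⁻¹ * (x 4)⁻¹ * (x 9)⁻¹ * (x 5)⁻¹ * x 8 * (x 10)⁻¹ * x 6 * (x 10)⁻¹ *
      (x 2)⁻¹ * x 8 * x 6,
    x 10,
    (x 2)⁻¹ * x 0 * x 8 * (x 1)⁻¹ * x 8 * x 10 * (x 1)⁻¹ * (x 9)⁻¹ * x 4 * (x 10)⁻¹ *
      (x 10)⁻¹ * x 6 * (x 10)⁻¹ * (x 2)⁻¹ * x 8 * x 6]

theorem phi_of (i : Fin 6) :
    hexData.aut hex_check (FreeGroup.of i) = phiImage FreeGroup.of i := by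
  have h : ∀ i : Fin 6, fw 6 (hexPhi.getD i.val []) = phiImage FreeGroup.of i := by
    decide +kernel
  exact (IsoData.aut_of hex_check i).trans (h i)

theorem psi_of (i : Fin 11) :
    octData.aut oct_check (FreeGroup.of i) = psiImage FreeGroup.of i := by
  have h : ∀ i : Fin 11, fw 11 (octPhi.getD i.val []) = psiImage FreeGroup.of i := by
    decide +kernel
  exact (IsoData.aut_of oct_check i).trans (h i)

/-- There are automorphisms `φ` of `F₆` and `ψ` of `F₁₁`, given by the words above, which are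
irreducible, whose mapping tori are hyperbolic, and whose mapping tori are not quasi-isometric. -/
theorem result :
    ∃ (φ : MulAut (FreeGroup (Fin 6))) (ψ : MulAut (FreeGroup (Fin 11))),
      (∀ i, φ (FreeGroup.of i) = phiImage FreeGroup.of i) ∧
      (∀ i, ψ (FreeGroup.of i) = psiImage FreeGroup.of i) ∧
      IsIrreducibleAut φ ∧ IsIrreducibleAut ψ ∧
      IsHyperbolicGroup (MappingTorus φ) ∧ IsHyperbolicGroup (MappingTorus ψ) ∧
      ¬ QIGroups (MappingTorus φ) (MappingTorus ψ) ∧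
      ¬ QIGroups (MappingTorus ψ) (MappingTorus φ) := by
  refine ⟨hexData.aut hex_check, octData.aut oct_check, phi_of, psi_of, hex_irr, oct_irr,
    IsHyperbolicGroup.of_equiv hexIso.symm
      (_root_.QFC.KData.isHyperbolic hexK (by norm_num) (by norm_num) (by norm_num)),
    IsHyperbolicGroup.of_equiv octIso.symm
      (_root_.QFC.KData.isHyperbolic octK (by norm_num) (by norm_num) (by norm_num)), ?_, ?_⟩
  · intro h
    exact (_root_.QFC.not_qi octK hexK).2 (QIGroups.of_equiv hexIso octIso h)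
  · intro h
    exact (_root_.QFC.not_qi octK hexK).1 (QIGroups.of_equiv octIso hexIso h)

end Pool.Agent.Results.MP_d0a8c9_al.NotQI
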